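import Pool.Agent.H5.RN.Ran
import Pool.Agent.H5.RN.Unif
import Pool.Agent.H5.RN.Lift

/-!
# Independent uniform points lose a growing factor for every large number of points

Q1 and Q2 ask if `n` i.i.d. uniform points are optimal up to constants for integration on
`H^{k,mix}(𝕋^d)`, for the Monte Carlo error and for the uniform error. The library (`MonteCarloLoss`,
`UniformErrorLoss`) proves, for `d = 2`, that for infinitely many `n` (a very sparse sequence with
`log n_{t+1} / log n_t` of order `2^b`, `b` large) they lose at least the factor `(log n)^θ`.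

Here the loss is proved for **all** large `n`, so that the ratios `e(𝒫_n) / e(n)` tend to infinity, at least like
`(log n)^θ` with the same `θ` (`θ < k` for the Monte Carlo error with `1/2 < k < 1`, `θ < k - 1/2` for the
uniform error with `k > 1/2`). Separately: for all large `n` the error of `n` i.i.d. points is at least
`n^{-(k+1/2)} (log n)^θ` (Monte Carlo, `θ < k`) and `n^{-k} (log n)^θ` (uniform, `θ < k`) in every dimension `d ≥ 2`,
while the optimal errors for `d = 2` are at most `C n^{-(k+1/2)}` and `C n^{-k} (log n)^{1/2}`.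

**Proof.** The lower bounds of the library (`ran_param`, `lower_param`) hold for `n' = μ Q^(R+1)` points, where
`μ`, `Q`, `R` are nearly free. For a given `n` put `x = (log n)^{1/(b+1)}`; then there are `μ ∈ [x^{b-1}, 3 x^{b-1}]`,
`Q ≥ x^s` and `R ∈ [x^b, x^{b+1}]` with `n ≤ n' ≤ 2 n` (`Q` is the integer part of an `(R+1)`-st root, and
`(1 + 1/Q)^{R+1} ≤ 2`); and the errors decrease in the number of points. If `b` is large, the loss is as stated.
The errors of i.i.d. points do not decrease if the dimension grows (functions of two of the variables).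

Definitions (library): `ranIid`, `ranOpt` (`Pool.Graph.R_seed8.W691.Ran.Defs`), `eIid`, `eOpt`
(`Pool.Graph.R_seed8.Helper150.Iid.Defs`): the Monte Carlo and the uniform error of `n` i.i.d. points, and the
optimal ones of random point sets with at most `n` points.
-/

set_option autoImplicit false

namespace Pool.Agent.Results.MP_2e2259_an.EverySampleSize

open MeasureTheory Filter Topology
open scoped ENNReal
open Pool.Agent.Helper150.Iid Pool.Agent.W691.Ran

/-- `a_n ≍ b_n`: `c b_n ≤ a_n ≤ C b_n` for all large `n`, with `c > 0` and `C` independent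
of `n`. -/
def SameOrder (a b : ℕ → ℝ≥0∞) : Prop :=
  ∃ c C : ℝ, 0 < c ∧ ∃ n₀ : ℕ, ∀ n : ℕ, n₀ ≤ n →
    ENNReal.ofReal c * b n ≤ a n ∧ a n ≤ ENNReal.ofReal C * b n

theorem not_same {a b : ℕ → ℝ≥0∞} {θ : ℝ} (hθ : 0 < θ)
    (h : ∀ᶠ n : ℕ in atTop, ENNReal.ofReal ((Real.log n) ^ θ) * b n < a n) : ¬ SameOrder a b := by
  rintro ⟨c, C, hc, n₀, H⟩
  have h1 : Tendsto (fun n : ℕ => (Real.log n) ^ θ) atTop atTop :=
    (tendsto_rpow_atTop hθ).comp (Real.tendsto_log_atTop.comp tendsto_natCast_atTop_atTop)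
  obtain ⟨n, h2, h3, h4⟩ := (h.and ((h1.eventually_ge_atTop C).and
    (eventually_ge_atTop n₀))).exists
  refine absurd ((H n h4).2.trans ?_) (not_le.2 h2)
  exact mul_le_mul' (ENNReal.ofReal_le_ofReal h3) le_rfl

theorem result :
    -- Q1, Monte Carlo error
    (¬ ∀ (d : ℕ) (k : ℝ), 1 ≤ d → 1 / 2 < k → SameOrder (ranIid d k) (ranOpt d k)) ∧
    (∀ k : ℝ, 1 / 2 < k → k < 1 →
      (∀ θ : ℝ, θ < k → ∀ᶠ n : ℕ in atTop,
        ENNReal.ofReal ((Real.log n) ^ θ) * ranOpt 2 k n < ranIid 2 k n) ∧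
      (∀ θ : ℝ, θ < k → ∀ᶠ n : ℕ in atTop, ∀ d : ℕ, 2 ≤ d →
        ENNReal.ofReal ((n : ℝ) ^ (-(k + 1 / 2)) * (Real.log n) ^ θ) ≤ ranIid d k n) ∧
      ∃ C : ℝ, 0 < C ∧ ∀ n : ℕ, 0 < n →
        ranOpt 2 k n ≤ ENNReal.ofReal (C * (n : ℝ) ^ (-(k + 1 / 2)))) ∧
    -- Q2, uniform error
    (¬ ∀ (d : ℕ) (k : ℝ), 1 ≤ d → 1 / 2 < k → SameOrder (eIid d k) (eOpt d k)) ∧
    (∀ k : ℝ, 1 / 2 < k →
      (∀ θ : ℝ, θ < k - 1 / 2 → ∀ᶠ n : ℕ in atTop,
        ENNReal.ofReal ((Real.log n) ^ θ) * eOpt 2 k n < eIid 2 k n) ∧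
      (∀ θ : ℝ, θ < k → ∀ᶠ n : ℕ in atTop, ∀ d : ℕ, 2 ≤ d →
        ENNReal.ofReal ((n : ℝ) ^ (-k) * (Real.log n) ^ θ) ≤ eIid d k n) ∧
      ∃ C : ℝ, 0 < C ∧ ∀ n : ℕ, 2 ≤ n →
        eOpt 2 k n ≤ ENNReal.ofReal (C * (n : ℝ) ^ (-k) * Real.sqrt (Real.log n))) := by
  refine ⟨fun h => ?_, fun k hk hk1 => ⟨fun θ hθ => Pool.Agent.H5.RN.ran_all k hk hk1 θ hθ,
    fun θ hθ => (Pool.Agent.H5.RN.ran_rate k hk hk1 θ hθ).mono fun n hn d hd =>
      hn.trans (Pool.Agent.H5.RN.ranIid_dim k n hd),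
    Pool.Agent.H5.RN.ranOpt_rate k hk hk1⟩, fun h => ?_,
    fun k hk => ⟨fun θ hθ => Pool.Agent.H5.RN.unif_all k hk θ hθ,
    fun θ hθ => (Pool.Agent.H5.RN.unif_rate k hk θ hθ).mono fun n hn d hd =>
      hn.trans (Pool.Agent.H5.RN.eIid_dim k n hd),
    Upper.eOpt_le k hk (Lat.lattice_sum k hk)⟩⟩
  · exact not_same (θ := 1 / 4) (by norm_num)
      (Pool.Agent.H5.RN.ran_all (3 / 4) (by norm_num) (by norm_num) (1 / 4) (by norm_num))
      (h 2 (3 / 4) (by norm_num) (by norm_num))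
  · exact not_same (θ := 1 / 4) (by norm_num)
      (Pool.Agent.H5.RN.unif_all 1 (by norm_num) (1 / 4) (by norm_num))
      (h 2 1 (by norm_num) (by norm_num))

end Pool.Agent.Results.MP_2e2259_an.EverySampleSize
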